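import Pool.Agent.H69.LL.Main

/-!
# MP_2744a5_an, Q1: bijective symbols, for all `δ < |λ| ≤ 1`

The definitions (rooted trees, the little Lipschitz space and its norm, composition operators, hypercyclicity) are in
`Pool/Agent/H70/LittleLipDefs.lean`.

Idea of the proof. The tree has the vertices `(m, i, x)`, `m` an integer, `i, x ≥ 0`: on each level `m` the comb with the teeth
`{i} × ℕ`, and the points `(m, 0, 0)` form a line. For `m ≥ 0` the map goes from the level `m` to the level `m + 1` by `φ₀^q`, where
`φ₀ (0, x) = (0, 2x+1)`, `φ₀ (1, x) = (0, 2x)`, `φ₀ (i+2, x) = (i+1, x)` (so each vertex is separated from the others by distances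
`≥ c 2^n` after `n` steps, filled with vertices from the other teeth); for `m < 0` it is a permutation of the comb which moves each
vertex to an equal or adjacent position. These permutations are chosen so that at infinitely many times `n` the composed permutation
from the level `-n` to the level `0` takes each vertex `w` of a large square from the middle of its own far tooth `i_w`, the rest of this
tooth being shifted by one. Then `χ_w` plus a slowly varying bump on the tooth `i_w` has a slowly varying `n`-th image, which gives
the backward half of the hypercyclicity criterion for `|λ| ≤ 1`; the forward half, for `|λ| > 2^(-q)`, is as for `φ₀`.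
-/

set_option autoImplicit false

namespace Pool.Agent.Results.MP_2744a5_an.AllLambda

open Pool.Agent.H70.LittleLip

/-- There is a rooted tree `(G, o)` such that for every `δ > 0` there is a bijective self-map `φ` of
its vertex set for which `f ↦ f ∘ φ` is a bounded operator on the little Lipschitz space of the
tree and `f ↦ c • (f ∘ φ)` is hypercyclic there for every complex `c` with `δ < ‖c‖ ≤ 1`. -/
theorem result :
    ∃ (V : Type) (G : SimpleGraph V) (o : V), IsRootedTree G o ∧
      ∀ δ : ℝ, 0 < δ → ∃ φ : V → V, IsCompositionOperator G o φ ∧ Function.Bijective φ ∧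
        ∀ c : ℂ, δ < ‖c‖ → ‖c‖ ≤ 1 → IsHypercyclic G o (fun f => c • (f ∘ φ)) :=
  ⟨Pool.Agent.H69.LL.V3, Pool.Agent.H69.LL.tr.graph, Pool.Agent.H69.LL.tr.o,
    Pool.Agent.H69.LL.tr.isRootedTree, Pool.Agent.H69.LL.main⟩

end Pool.Agent.Results.MP_2744a5_an.AllLambda
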